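import Pool.Agent.Y89.TS.Stm2

/-!
Job TS-MAX (helper998): maximality of the spin Lie algebra in the Clifford algebra.
-/

set_option autoImplicit false

open Matrix Finset

namespace Pool.Agent.Y998.TS

open Pool.Agent.Y89.TS

section
variable {N : Type} [Fintype N] [DecidableEq N] {n : ℕ}

/-- the rules for the monomials -/
structure Mon (Γ : Fin n → Matrix N N ℂ) : Prop where
  sq : ∀ i, Γ i * Γ i = 1
  e : mono Γ ∅ = 1
  one : ∀ i, mono Γ {i} = Γ i
  mul : ∀ s t : Finset (Fin n), mono Γ s * mono Γ t = mono Γ (symmDiff s t) ∨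
    mono Γ s * mono Γ t = -mono Γ (symmDiff s t)
  comm : ∀ s t : Finset (Fin n), mono Γ s * mono Γ t =
    ((-1 : ℂ) ^ (s.card * t.card + (s ∩ t).card)) • (mono Γ t * mono Γ s)

variable {Γ : Fin n → Matrix N N ℂ}

theorem Mon.cm (h : Mon Γ) {s t : Finset (Fin n)} (hs : Even s.card) (hst : Even (s ∩ t).card) :
    mono Γ s * mono Γ t = mono Γ t * mono Γ s := by
  rw [h.comm s t, Even.neg_one_pow ((hs.mul_right _).add hst), one_smul]

theorem Mon.ac (h : Mon Γ) {s t : Finset (Fin n)} (hs : Even s.card) (hst : Odd (s ∩ t).card) :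
    mono Γ s * mono Γ t = -(mono Γ t * mono Γ s) := by
  rw [h.comm s t, Odd.neg_one_pow ((hs.mul_right _).add_odd hst), neg_one_smul]

theorem symm_pair {i j : Fin n} (hij : i ≠ j) : symmDiff ({i} : Finset (Fin n)) {j} = {i, j} := by
  ext x
  simp only [Finset.mem_symmDiff, Finset.mem_singleton, Finset.mem_insert]
  constructor
  · rintro (⟨h, -⟩ | ⟨h, -⟩)
    · exact Or.inl h
    · exact Or.inr h
  · rintro (h | h)
    · exact Or.inl ⟨h, fun h' => hij (h.symm.trans h')⟩
    · exact Or.inr ⟨h, fun h' => hij (h'.symm.trans h)⟩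

theorem Mon.pair (h : Mon Γ) {i j : Fin n} (hij : i ≠ j) :
    Γ i * Γ j = mono Γ {i, j} ∨ Γ i * Γ j = -mono Γ {i, j} := by
  have h1 := h.mul {i} {j}
  rw [h.one, h.one, symm_pair hij] at h1
  exact h1

theorem Mon.pair_sq (h : Mon Γ) {i j : Fin n} (hij : i ≠ j) :
    (Γ i * Γ j) * (Γ i * Γ j) = -1 := by
  have h1 := h.comm {i} {j}
  rw [h.one, h.one] at h1
  have h2 : ({i} : Finset (Fin n)) ∩ {j} = ∅ := by
    ext x; simp only [Finset.mem_inter, Finset.mem_singleton, Finset.notMem_empty, iff_false]
    rintro ⟨h3, h4⟩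
    exact hij (h3.symm.trans h4)
  rw [h2] at h1
  simp only [Finset.card_singleton, Finset.card_empty, mul_one, add_zero, pow_one, neg_smul,
    one_smul] at h1
  calc (Γ i * Γ j) * (Γ i * Γ j) = (Γ i * Γ j) * (-(Γ j * Γ i)) := by rw [← h1]
    _ = -(Γ i * (Γ j * Γ j) * Γ i) := by noncomm_ring
    _ = -1 := by rw [h.sq, mul_one, h.sq]

theorem Mon.tr0 (h : Mon Γ) {s : Finset (Fin n)} (hs : Even s.card) (hne : s.Nonempty) :
    (mono Γ s).trace = 0 := by
  obtain ⟨i, hi⟩ := hne
  have h1 : s ∩ {i} = {i} := by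
    rw [Finset.inter_singleton_of_mem hi]
  have h2 := h.ac (s := s) (t := {i}) hs (by rw [h1]; simp)
  rw [h.one] at h2
  have h3 : mono Γ s = -(Γ i * mono Γ s * Γ i) := by
    calc mono Γ s = mono Γ s * (Γ i * Γ i) := by rw [h.sq, mul_one]
      _ = (mono Γ s * Γ i) * Γ i := by rw [mul_assoc]
      _ = -(Γ i * mono Γ s * Γ i) := by rw [h2, neg_mul]
  have h4 : (mono Γ s).trace = -(mono Γ s).trace := by
    conv_lhs => rw [h3]
    rw [Matrix.trace_neg, Matrix.trace_mul_comm, ← mul_assoc, h.sq, one_mul]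
  have h5 : (2 : ℂ) * (mono Γ s).trace = 0 := by linear_combination h4
  simpa using h5

theorem card_symm_even {s t : Finset (Fin n)} (hs : Even s.card) (ht : Even t.card) :
    Even (symmDiff s t).card := by
  have h1 : (symmDiff s t).card + 2 * (s ∩ t).card = s.card + t.card := by
    have h2 : symmDiff s t = (s \ t) ∪ (t \ s) := rfl
    have h3 : Disjoint (s \ t) (t \ s) := by
      rw [Finset.disjoint_left]
      intro x hx hx'
      rw [Finset.mem_sdiff] at hx hx'
      exact hx.2 hx'.1
    rw [h2, Finset.card_union_of_disjoint h3]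
    have h4 := Finset.card_sdiff_add_card_inter s t
    have h5 := Finset.card_sdiff_add_card_inter t s
    rw [Finset.inter_comm t s] at h5
    omega
  rw [Nat.even_iff] at hs ht ⊢
  omega

theorem Mon.tr_mul (h : Mon Γ) {s t : Finset (Fin n)} (hs : Even s.card) (ht : Even t.card)
    (hst : s ≠ t) : (mono Γ s * mono Γ t).trace = 0 := by
  have h1 : (symmDiff s t).Nonempty := by
    rw [Finset.nonempty_iff_ne_empty]
    intro h2
    exact hst (symmDiff_eq_bot.1 h2)
  have h2 := h.tr0 (card_symm_even hs ht) h1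
  rcases h.mul s t with h3 | h3
  · rw [h3, h2]
  · rw [h3, Matrix.trace_neg, h2, neg_zero]

theorem Mon.tr_sq [Nonempty N] (h : Mon Γ) (t : Finset (Fin n)) :
    (mono Γ t * mono Γ t).trace ≠ 0 := by
  have hN : (Fintype.card N : ℂ) ≠ 0 := by exact_mod_cast Fintype.card_ne_zero
  rcases h.mul t t with h3 | h3
  · rw [h3, symmDiff_self]
    have : mono Γ (⊥ : Finset (Fin n)) = 1 := h.e
    rw [this, Matrix.trace_one]
    exact hN
  · rw [h3, symmDiff_self]
    have : mono Γ (⊥ : Finset (Fin n)) = 1 := h.e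
    rw [this, Matrix.trace_neg, Matrix.trace_one]
    exact neg_ne_zero.2 hN

/-- the even monomials are linearly independent -/
theorem Mon.indep [Nonempty N] (h : Mon Γ) {c : Finset (Fin n) → ℂ}
    (hc : ∀ s, ¬ Even s.card → c s = 0) (h0 : ∑ s, c s • mono Γ s = 0) : ∀ s, c s = 0 := by
  intro t
  by_cases ht : Even t.card
  · have h1 : ((∑ s, c s • mono Γ s) * mono Γ t).trace = 0 := by rw [h0, zero_mul, Matrix.trace_zero]
    rw [Finset.sum_mul, Matrix.trace_sum, Finset.sum_eq_single t] at h1
    · rw [smul_mul_assoc, Matrix.trace_smul, smul_eq_mul] at h1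
      exact (mul_eq_zero.1 h1).resolve_right (h.tr_sq t)
    · intro s _ hst
      by_cases hs : Even s.card
      · rw [smul_mul_assoc, Matrix.trace_smul, h.tr_mul hs ht hst, smul_zero]
      · rw [hc s hs, zero_smul, zero_mul, Matrix.trace_zero]
    · intro h2
      exact absurd (Finset.mem_univ t) h2
  · exact hc t ht

/-- elements of the span of the even monomials -/
theorem exists_coef {a : Matrix N N ℂ}
    (ha : a ∈ Submodule.span ℂ {z | ∃ s : Finset (Fin n), Even s.card ∧ z = mono Γ s}) :
    ∃ c : Finset (Fin n) → ℂ, (∀ s, ¬ Even s.card → c s = 0) ∧ a = ∑ s, c s • mono Γ s := by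
  classical
  induction ha using Submodule.span_induction with
  | mem x hx =>
    obtain ⟨s, hs, rfl⟩ := hx
    refine ⟨fun t => if t = s then 1 else 0, ?_, ?_⟩
    · intro t ht
      have h1 : t ≠ s := by
        rintro rfl
        exact ht hs
      simp only [if_neg h1]
    · simp
  | zero => exact ⟨fun _ => 0, fun _ _ => rfl, by simp⟩
  | add x y _ _ hx hy =>
    obtain ⟨c, hc, rfl⟩ := hx
    obtain ⟨d, hd, rfl⟩ := hy
    refine ⟨fun s => c s + d s, fun s hs => by simp only [hc s hs, hd s hs, add_zero], ?_⟩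
    rw [← Finset.sum_add_distrib]
    exact Finset.sum_congr rfl fun s _ => (add_smul _ _ _).symm
  | smul r x _ hx =>
    obtain ⟨c, hc, rfl⟩ := hx
    refine ⟨fun s => r * c s, fun s hs => by simp only [hc s hs, mul_zero], ?_⟩
    rw [Finset.smul_sum]
    exact Finset.sum_congr rfl fun s _ => (mul_smul _ _ _).symm

/-! ### The anti-automorphism -/

theorem tau_one (h : Mon Γ) (hn : 2 ≤ n) {τ : Matrix N N ℂ →ₗ[ℂ] Matrix N N ℂ}
    (hm : ∀ a b, τ (a * b) = τ b * τ a) (hp : ∀ i j, i ≠ j → τ (Γ i * Γ j) = -(Γ i * Γ j)) :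
    τ 1 = 1 := by
  have hij : (⟨0, by omega⟩ : Fin n) ≠ ⟨1, by omega⟩ := by
    intro h'
    simpa using congrArg Fin.val h'
  have h1 := hm (Γ ⟨0, by omega⟩ * Γ ⟨1, by omega⟩) 1
  rw [mul_one, hp _ _ hij] at h1
  have h2 := congrArg (fun z => z * (Γ ⟨0, by omega⟩ * Γ ⟨1, by omega⟩)) h1
  simp only [mul_assoc, neg_mul, mul_neg] at h2
  have h3 := h.pair_sq hij
  simp only [mul_assoc] at h3
  rw [h3] at h2
  simp only [neg_neg, mul_neg, mul_one] at h2
  exact h2.symm

theorem tau_mono (h : Mon Γ) (hn : 2 ≤ n) {τ : Matrix N N ℂ →ₗ[ℂ] Matrix N N ℂ}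
    (hm : ∀ a b, τ (a * b) = τ b * τ a) (hp : ∀ i j, i ≠ j → τ (Γ i * Γ j) = -(Γ i * Γ j)) :
    ∀ (k : ℕ) (s : Finset (Fin n)), s.card = 2 * k → τ (mono Γ s) = ((-1 : ℂ) ^ k) • mono Γ s := by
  intro k
  induction k with
  | zero =>
    intro s hs
    have : s = ∅ := Finset.card_eq_zero.1 (by omega)
    subst this
    rw [h.e, tau_one h hn hm hp, pow_zero, one_smul]
  | succ k ih =>
    intro s hs
    obtain ⟨a, ha⟩ : s.Nonempty := Finset.card_pos.1 (by omega)
    obtain ⟨b, hb⟩ : (s.erase a).Nonempty := Finset.card_pos.1 (by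
      rw [Finset.card_erase_of_mem ha]; omega)
    have hba : b ≠ a := (Finset.mem_erase.1 hb).1
    have hbs : b ∈ s := (Finset.mem_erase.1 hb).2
    set s' := (s.erase a).erase b with hs'
    have hc : s'.card = 2 * k := by
      rw [hs', Finset.card_erase_of_mem hb, Finset.card_erase_of_mem ha]; omega
    have hd : symmDiff s' {a, b} = s := by
      ext x
      simp only [hs', Finset.mem_symmDiff, Finset.mem_erase, Finset.mem_insert,
        Finset.mem_singleton]
      constructor
      · rintro (⟨⟨-, -, h1⟩, -⟩ | ⟨h1 | h1, -⟩)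
        · exact h1
        · rw [h1]; exact ha
        · rw [h1]; exact hbs
      · intro hx
        by_cases h1 : x = a
        · right
          exact ⟨Or.inl h1, fun h2 => h2.2.1 h1⟩
        · by_cases h2 : x = b
          · right
            exact ⟨Or.inr h2, fun h3 => h3.1 h2⟩
          · left
            exact ⟨⟨h2, h1, hx⟩, fun h3 => h3.elim h1 h2⟩
    have hab : a ≠ b := fun h1 => hba h1.symm
    have hpair : τ (mono Γ {a, b}) = -mono Γ {a, b} := by
      rcases h.pair hab with h1 | h1
      · rw [← h1, hp a b hab]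
      · have h2 : mono Γ {a, b} = -(Γ a * Γ b) := by rw [h1, neg_neg]
        rw [h2, map_neg, hp a b hab]
    have hcomm : mono Γ s' * mono Γ {a, b} = mono Γ {a, b} * mono Γ s' := by
      apply h.cm
      · rw [hc]; exact even_two_mul k
      · have : s' ∩ {a, b} = ∅ := by
          ext x
          simp only [hs', Finset.mem_inter, Finset.mem_erase, Finset.mem_insert,
            Finset.mem_singleton, Finset.notMem_empty, iff_false]
          rintro ⟨⟨h1, h2, -⟩, h3⟩
          exact h3.elim h2 h1
        rw [this]; simp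
    have hmain : τ (mono Γ s' * mono Γ {a, b}) =
        ((-1 : ℂ) ^ (k + 1)) • (mono Γ s' * mono Γ {a, b}) := by
      rw [hm, hpair, ih s' hc, hcomm, neg_mul, mul_smul_comm, pow_succ, mul_neg_one, neg_smul]
    rcases h.mul s' {a, b} with h1 | h1
    · rw [h1, hd] at hmain
      exact hmain
    · rw [h1, hd, map_neg, smul_neg] at hmain
      exact neg_injective hmain

/-- skew elements of the span of the even monomials -/
theorem skew_coef [Nonempty N] (h : Mon Γ) (hn : 2 ≤ n) {τ : Matrix N N ℂ →ₗ[ℂ] Matrix N N ℂ}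
    (hm : ∀ a b, τ (a * b) = τ b * τ a) (hp : ∀ i j, i ≠ j → τ (Γ i * Γ j) = -(Γ i * Γ j))
    {c : Finset (Fin n) → ℂ} (hc : ∀ s, ¬ Even s.card → c s = 0)
    (ha : τ (∑ s, c s • mono Γ s) = -∑ s, c s • mono Γ s) :
    ∀ s, c s ≠ 0 → s.card % 4 = 2 := by
  have h1 : ∑ s : Finset (Fin n), (c s * ((-1 : ℂ) ^ (s.card / 2) + 1)) • mono Γ s = 0 := by
    have h2 : τ (∑ s, c s • mono Γ s) =
        ∑ s : Finset (Fin n), (c s * (-1 : ℂ) ^ (s.card / 2)) • mono Γ s := by
      rw [map_sum]
      refine Finset.sum_congr rfl fun s _ => ?_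
      rw [map_smul]
      by_cases hs : Even s.card
      · obtain ⟨k, hk⟩ := hs
        rw [tau_mono h hn hm hp k s (by omega), smul_smul]
        congr 2
        congr 1
        omega
      · rw [hc s hs, zero_smul, zero_mul, zero_smul]
    rw [h2] at ha
    have h3 : ∑ s : Finset (Fin n), (c s * ((-1 : ℂ) ^ (s.card / 2) + 1)) • mono Γ s =
        (∑ s : Finset (Fin n), (c s * (-1 : ℂ) ^ (s.card / 2)) • mono Γ s) +
          ∑ s, c s • mono Γ s := by
      rw [← Finset.sum_add_distrib]
      refine Finset.sum_congr rfl fun s _ => ?_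
      rw [← add_smul]
      congr 1
      ring
    rw [h3, ha, neg_add_cancel]
  have h2 := h.indep (c := fun s => c s * ((-1 : ℂ) ^ (s.card / 2) + 1))
    (fun s hs => by rw [hc s hs, zero_mul]) h1
  intro s hs
  have h3 := (mul_eq_zero.1 (h2 s)).resolve_left hs
  have h4 : Even s.card := by
    by_contra h5
    exact hs (hc s h5)
  rcases Nat.even_or_odd (s.card / 2) with h5 | h5
  · rw [h5.neg_one_pow] at h3
    norm_num at h3
  · obtain ⟨k, hk⟩ := h4
    obtain ⟨l, hl⟩ := h5
    omega

/-! ### The Lie algebra -/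

/-- Lie algebras of matrices that contain the products `Γ i * Γ j` -/
structure Lie (Γ : Fin n → Matrix N N ℂ) (L : Submodule ℂ (Matrix N N ℂ)) : Prop where
  br : ∀ a ∈ L, ∀ b ∈ L, a * b - b * a ∈ L
  two : ∀ i j, i ≠ j → Γ i * Γ j ∈ L

variable {L : Submodule ℂ (Matrix N N ℂ)}

theorem Lie.conj (h : Mon Γ) (hL : Lie Γ L) {a b : Fin n} (hab : a ≠ b) {X : Matrix N N ℂ}
    (hX : X ∈ L) : (Γ a * Γ b) * X * (Γ a * Γ b) ∈ L := by
  have h1 := hL.two a b hab
  have h2 := hL.br _ h1 _ (hL.br _ h1 _ hX)
  set G := Γ a * Γ b with hG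
  have h3 : G * G = -1 := h.pair_sq hab
  have h4 : G * (G * X - X * G) - (G * X - X * G) * G =
      (G * G) * X + X * (G * G) - (2 : ℂ) • (G * X * G) := by
    rw [two_smul]
    noncomm_ring
  rw [h4, h3] at h2
  have h5 : G * X * G = (-(1 / 2) : ℂ) • (-1 * X + X * -1 - (2 : ℂ) • (G * X * G)) +
      (-1 : ℂ) • X := by
    rw [smul_sub, smul_add, smul_smul]
    simp only [neg_mul, one_mul, mul_neg, mul_one, smul_neg]
    module
  rw [h5]
  exact L.add_mem (L.smul_mem _ h2) (L.smul_mem _ hX)

/-- the sign of the conjugation -/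
noncomputable def sg (a b : Fin n) (u : Finset (Fin n)) : ℂ :=
  if Even (({a, b} : Finset (Fin n)) ∩ u).card then -1 else 1

theorem Mon.conj_mono (h : Mon Γ) {a b : Fin n} (hab : a ≠ b) (u : Finset (Fin n)) :
    (Γ a * Γ b) * mono Γ u * (Γ a * Γ b) = sg a b u • mono Γ u := by
  have hc : Even ({a, b} : Finset (Fin n)).card := by rw [Finset.card_pair hab]; exact even_two
  have h0 : (Γ a * Γ b) * mono Γ u * (Γ a * Γ b) = mono Γ {a, b} * mono Γ u * mono Γ {a, b} := by
    rcases h.pair hab with h1 | h1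
    · rw [h1]
    · rw [h1]; simp only [neg_mul, mul_neg, neg_neg]
  have h3 : mono Γ {a, b} * mono Γ {a, b} = -1 := by
    rw [← h.pair_sq hab]
    rcases h.pair hab with h1 | h1
    · rw [h1]
    · rw [h1]; simp only [neg_mul, mul_neg, neg_neg]
  rw [h0]
  unfold sg
  split_ifs with h1
  · rw [h.cm hc h1, mul_assoc, h3]
    simp
  · rw [h.ac hc (Nat.not_even_iff_odd.1 h1), neg_mul, mul_assoc, h3]
    simp

theorem sep (hn : Odd n) {s t : Finset (Fin n)} (hs : Even s.card) (ht : Even t.card)
    (hst : s ≠ t) : ∃ a b : Fin n, a ≠ b ∧ sg a b s ≠ sg a b t := by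
  have h1 : (symmDiff s t).Nonempty := by
    rw [Finset.nonempty_iff_ne_empty]
    intro h2
    exact hst (symmDiff_eq_bot.1 h2)
  obtain ⟨a, ha⟩ := h1
  have h2 : ∃ b, b ∉ symmDiff s t := by
    by_contra h3
    push Not at h3
    have h4 : symmDiff s t = Finset.univ := Finset.eq_univ_iff_forall.2 h3
    have h5 := card_symm_even hs ht
    rw [h4, Finset.card_univ, Fintype.card_fin] at h5
    exact (Nat.not_even_iff_odd.2 hn) h5
  obtain ⟨b, hb⟩ := h2
  have hab : a ≠ b := by
    rintro rfl
    exact hb ha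
  refine ⟨a, b, hab, ?_⟩
  have key : ∀ u : Finset (Fin n), sg a b u = if (a ∈ u ↔ b ∈ u) then -1 else 1 := by
    intro u
    unfold sg
    have h3 : (({a, b} : Finset (Fin n)) ∩ u).card = (if a ∈ u then 1 else 0) +
        (if b ∈ u then 1 else 0) := by
      by_cases h4 : a ∈ u <;> by_cases h5 : b ∈ u
      · have : ({a, b} : Finset (Fin n)) ∩ u = {a, b} := by
          rw [Finset.inter_eq_left]
          intro x hx
          rw [Finset.mem_insert, Finset.mem_singleton] at hx
          rcases hx with rfl | rfl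
          · exact h4
          · exact h5
        rw [this, Finset.card_pair hab, if_pos h4, if_pos h5]
      · have : ({a, b} : Finset (Fin n)) ∩ u = {a} := by
          ext x
          simp only [Finset.mem_inter, Finset.mem_insert, Finset.mem_singleton]
          constructor
          · rintro ⟨rfl | rfl, h6⟩
            · rfl
            · exact absurd h6 h5
          · rintro rfl
            exact ⟨Or.inl rfl, h4⟩
        rw [this, Finset.card_singleton, if_pos h4, if_neg h5]
      · have : ({a, b} : Finset (Fin n)) ∩ u = {b} := by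
          ext x
          simp only [Finset.mem_inter, Finset.mem_insert, Finset.mem_singleton]
          constructor
          · rintro ⟨rfl | rfl, h6⟩
            · exact absurd h6 h4
            · rfl
          · rintro rfl
            exact ⟨Or.inr rfl, h5⟩
        rw [this, Finset.card_singleton, if_neg h4, if_pos h5]
      · have : ({a, b} : Finset (Fin n)) ∩ u = ∅ := by
          ext x
          simp only [Finset.mem_inter, Finset.mem_insert, Finset.mem_singleton,
            Finset.notMem_empty, iff_false]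
          rintro ⟨rfl | rfl, h6⟩
          · exact h4 h6
          · exact h5 h6
        rw [this, Finset.card_empty, if_neg h4, if_neg h5]
    rw [h3]
    by_cases h4 : a ∈ u <;> by_cases h5 : b ∈ u <;> simp [h4, h5]
  rw [key s, key t]
  rw [Finset.mem_symmDiff] at ha hb
  push Not at hb
  have h9 : (-1 : ℂ) ≠ 1 := by norm_num
  have h9' : (1 : ℂ) ≠ -1 := by norm_num
  by_cases h3 : a ∈ s <;> by_cases h4 : b ∈ s <;> by_cases h5 : a ∈ t <;> by_cases h6 : b ∈ t <;>
    simp_all

theorem Lie.supp (h : Mon Γ) (hn : Odd n) (hL : Lie Γ L) :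
    ∀ (k : ℕ) (c : Finset (Fin n) → ℂ), (∀ s, ¬ Even s.card → c s = 0) →
      (Finset.univ.filter fun s => c s ≠ 0).card ≤ k → ∑ s, c s • mono Γ s ∈ L →
      ∀ s, c s ≠ 0 → mono Γ s ∈ L := by
  intro k
  induction k with
  | zero =>
    intro c _ hk _ s hs
    have h1 : s ∈ Finset.univ.filter fun s => c s ≠ 0 := by simp [hs]
    have h2 := Finset.card_pos.2 ⟨s, h1⟩
    omega
  | succ k ih =>
    intro c hc hk hX s hs
    by_cases h1 : ∃ t, t ≠ s ∧ c t ≠ 0
    · obtain ⟨t, hts, ht⟩ := h1
      have hse : Even s.card := by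
        by_contra h2
        exact hs (hc s h2)
      have hte : Even t.card := by
        by_contra h2
        exact ht (hc t h2)
      obtain ⟨a, b, hab, h2⟩ := sep hn hse hte (fun h' => hts h'.symm)
      have hsg : ∀ u, sg a b u = -1 ∨ sg a b u = 1 := by
        intro u
        unfold sg
        split_ifs
        · exact Or.inl rfl
        · exact Or.inr rfl
      have h3 := hL.conj h hab hX
      have h4 : (Γ a * Γ b) * (∑ s, c s • mono Γ s) * (Γ a * Γ b) =
          ∑ u, (sg a b u * c u) • mono Γ u := by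
        rw [Finset.mul_sum, Finset.sum_mul]
        refine Finset.sum_congr rfl fun u _ => ?_
        rw [mul_smul_comm, smul_mul_assoc, h.conj_mono hab u, smul_smul, mul_comm]
      rw [h4] at h3
      have h5 : ∑ u, ((1 + sg a b s * sg a b u) * c u) • mono Γ u ∈ L := by
        have h6 : ∑ u, ((1 + sg a b s * sg a b u) * c u) • mono Γ u =
            (∑ u, c u • mono Γ u) + sg a b s • ∑ u, (sg a b u * c u) • mono Γ u := by
          rw [Finset.smul_sum, ← Finset.sum_add_distrib]
          refine Finset.sum_congr rfl fun u _ => ?_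
          rw [smul_smul, ← add_smul]
          congr 1
          ring
        rw [h6]
        exact L.add_mem hX (L.smul_mem _ h3)
      refine ih (fun u => (1 + sg a b s * sg a b u) * c u) ?_ ?_ h5 s ?_
      · intro u hu
        simp only [hc u hu, mul_zero]
      · have h6 : (Finset.univ.filter fun u => (1 + sg a b s * sg a b u) * c u ≠ 0) ⊆
            (Finset.univ.filter fun u => c u ≠ 0).erase t := by
          intro u hu
          rw [Finset.mem_filter] at hu
          rw [Finset.mem_erase, Finset.mem_filter]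
          refine ⟨?_, Finset.mem_univ _, fun h7 => hu.2 (by rw [h7, mul_zero])⟩
          rintro rfl
          apply hu.2
          rcases hsg s with h7 | h7 <;> rcases hsg u with h8 | h8
          · exact absurd (h7.trans h8.symm) h2
          · rw [h7, h8]; norm_num
          · rw [h7, h8]; norm_num
          · exact absurd (h7.trans h8.symm) h2
        have h7 : t ∈ Finset.univ.filter fun u => c u ≠ 0 := by simp [ht]
        have h8 := Finset.card_le_card h6
        rw [Finset.card_erase_of_mem h7] at h8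
        omega
      · have h6 : sg a b s * sg a b s = 1 := by
          rcases hsg s with h7 | h7 <;> rw [h7] <;> norm_num
        simp only [h6]
        exact mul_ne_zero (by norm_num) hs
    · push Not at h1
      have h2 : ∑ u, c u • mono Γ u = c s • mono Γ s := by
        rw [Finset.sum_eq_single s]
        · intro u _ hu
          rw [h1 u hu, zero_smul]
        · intro h3
          exact absurd (Finset.mem_univ s) h3
      rw [h2] at hX
      have h3 := L.smul_mem (c s)⁻¹ hX
      rwa [smul_smul, inv_mul_cancel₀ hs, one_smul] at h3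

/-- products of anticommuting monomials in `L` -/
theorem Lie.odd (h : Mon Γ) (hL : Lie Γ L) {s t : Finset (Fin n)} (hs : Even s.card)
    (hst : Odd (s ∩ t).card) (h1 : mono Γ s ∈ L) (h2 : mono Γ t ∈ L) :
    mono Γ (symmDiff s t) ∈ L := by
  have h3 := hL.br _ h1 _ h2
  have h4 := h.ac hs hst
  have h5 : mono Γ t * mono Γ s = -(mono Γ s * mono Γ t) := by rw [h4, neg_neg]
  rw [h5, sub_neg_eq_add, ← two_smul ℂ] at h3
  have h6 := L.smul_mem (1 / 2 : ℂ) h3
  rw [smul_smul] at h6
  norm_num at h6
  rcases h.mul s t with h7 | h7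
  · rwa [h7] at h6
  · rw [h7] at h6
    exact (Submodule.neg_mem_iff L).1 h6

theorem Lie.pair_mem (h : Mon Γ) (hL : Lie Γ L) {a b : Fin n} (hab : a ≠ b) :
    mono Γ {a, b} ∈ L := by
  have h1 := hL.two a b hab
  rcases h.pair hab with h2 | h2
  · rwa [h2] at h1
  · rw [h2] at h1
    exact (Submodule.neg_mem_iff L).1 h1

theorem Lie.deg (h : Mon Γ) (hL : Lie Γ L) : ∀ (k : ℕ) (s t : Finset (Fin n)),
    (s \ t).card ≤ k → s.card = t.card → Even s.card → mono Γ s ∈ L → mono Γ t ∈ L := by
  intro k
  induction k with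
  | zero =>
    intro s t hk hst _ hs
    have h1 : s \ t = ∅ := Finset.card_eq_zero.1 (by omega)
    have h2 : s ⊆ t := Finset.sdiff_eq_empty_iff_subset.1 h1
    have h3 : s = t := Finset.eq_of_subset_of_card_le h2 hst.ge
    rwa [← h3]
  | succ k ih =>
    intro s t hk hst he hs
    by_cases h1 : s \ t = ∅
    · have h2 : s ⊆ t := Finset.sdiff_eq_empty_iff_subset.1 h1
      have h3 : s = t := Finset.eq_of_subset_of_card_le h2 hst.ge
      rwa [← h3]
    · obtain ⟨a, ha⟩ := Finset.nonempty_iff_ne_empty.2 h1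
      have h2 : (t \ s).Nonempty := by
        rw [Finset.nonempty_iff_ne_empty]
        intro h3
        have h4 : t ⊆ s := Finset.sdiff_eq_empty_iff_subset.1 h3
        have h5 : t = s := Finset.eq_of_subset_of_card_le h4 hst.le
        rw [h5] at h1
        exact h1 (Finset.sdiff_self s)
      obtain ⟨b, hb⟩ := h2
      rw [Finset.mem_sdiff] at ha hb
      have hab : a ≠ b := by
        rintro rfl
        exact hb.2 ha.1
      have h3 : ({a, b} : Finset (Fin n)) ∩ s = {a} := by
        ext x
        simp only [Finset.mem_inter, Finset.mem_insert, Finset.mem_singleton]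
        constructor
        · rintro ⟨rfl | rfl, h6⟩
          · rfl
          · exact absurd h6 hb.2
        · rintro rfl
          exact ⟨Or.inl rfl, ha.1⟩
      have h4 : symmDiff ({a, b} : Finset (Fin n)) s = insert b (s.erase a) := by
        ext x
        simp only [Finset.mem_symmDiff, Finset.mem_insert, Finset.mem_singleton, Finset.mem_erase]
        constructor
        · rintro (⟨rfl | rfl, h6⟩ | ⟨h6, h7⟩)
          · exact absurd ha.1 h6
          · exact Or.inl rfl
          · exact Or.inr ⟨fun h8 => h7 (Or.inl h8), h6⟩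
        · rintro (rfl | ⟨h6, h7⟩)
          · exact Or.inl ⟨Or.inr rfl, hb.2⟩
          · refine Or.inr ⟨h7, ?_⟩
            rintro (h8 | h8)
            · exact h6 h8
            · exact hb.2 (h8 ▸ h7)
      have h5 : mono Γ (insert b (s.erase a)) ∈ L := by
        rw [← h4]
        apply hL.odd h _ _ (hL.pair_mem h hab) hs
        · rw [Finset.card_pair hab]; exact even_two
        · rw [h3]; simp
      have h6 : (insert b (s.erase a)).card = s.card := by
        rw [Finset.card_insert_of_notMem, Finset.card_erase_of_mem ha.1]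
        · have := Finset.card_pos.2 ⟨a, ha.1⟩
          omega
        · intro h7
          exact hb.2 (Finset.mem_erase.1 h7).2
      refine ih (insert b (s.erase a)) t ?_ (by rw [h6]; exact hst) (by rw [h6]; exact he) h5
      have h7 : insert b (s.erase a) \ t ⊆ (s \ t).erase a := by
        intro x hx
        rw [Finset.mem_sdiff, Finset.mem_insert, Finset.mem_erase] at hx
        rw [Finset.mem_erase, Finset.mem_sdiff]
        rcases hx with ⟨rfl | ⟨h8, h9⟩, h10⟩
        · exact absurd hb.1 h10
        · exact ⟨h8, h9, h10⟩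
      have h8 := Finset.card_le_card h7
      rw [Finset.card_erase_of_mem (Finset.mem_sdiff.2 ha)] at h8
      have h9 := Finset.card_pos.2 ⟨a, Finset.mem_sdiff.2 ha⟩
      omega

/-- all monomials of degree `k` are in `L` -/
def All (Γ : Fin n → Matrix N N ℂ) (L : Submodule ℂ (Matrix N N ℂ)) (k : ℕ) : Prop :=
  ∀ s : Finset (Fin n), s.card = k → mono Γ s ∈ L

theorem Lie.step (h : Mon Γ) (hL : Lie Γ L) {x y z : ℕ} (hx : Odd x) (hy : Odd y) (hz : Odd z)
    (hn : x + y + z ≤ n) (h1 : All Γ L (x + y)) (h2 : All Γ L (x + z)) : All Γ L (y + z) := by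
  obtain ⟨A, hA⟩ := Finset.exists_subset_card_eq (s := (Finset.univ : Finset (Fin n))) (n := x)
    (by rw [Finset.card_univ, Fintype.card_fin]; omega)
  obtain ⟨B, hB⟩ := Finset.exists_subset_card_eq (s := (Finset.univ : Finset (Fin n)) \ A)
    (n := y) (by
      rw [Finset.card_sdiff_of_subset hA.1, Finset.card_univ, Fintype.card_fin]; omega)
  obtain ⟨C, hC⟩ := Finset.exists_subset_card_eq (s := ((Finset.univ : Finset (Fin n)) \ A) \ B)
    (n := z) (by
      rw [Finset.card_sdiff_of_subset hB.1, Finset.card_sdiff_of_subset hA.1, Finset.card_univ,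
        Fintype.card_fin]; omega)
  have hAB : Disjoint A B := by
    rw [Finset.disjoint_right]
    intro a ha
    exact (Finset.mem_sdiff.1 (hB.1 ha)).2
  have hAC : Disjoint A C := by
    rw [Finset.disjoint_right]
    intro a ha
    exact (Finset.mem_sdiff.1 (Finset.mem_sdiff.1 (hC.1 ha)).1).2
  have hBC : Disjoint B C := by
    rw [Finset.disjoint_right]
    intro a ha
    exact (Finset.mem_sdiff.1 (hC.1 ha)).2
  have c1 : (A ∪ B).card = x + y := by rw [Finset.card_union_of_disjoint hAB, hA.2, hB.2]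
  have c2 : (A ∪ C).card = x + z := by rw [Finset.card_union_of_disjoint hAC, hA.2, hC.2]
  have c3 : (B ∪ C).card = y + z := by rw [Finset.card_union_of_disjoint hBC, hB.2, hC.2]
  have i1 : (A ∪ B) ∩ (A ∪ C) = A := by
    rw [← Finset.union_inter_distrib_left, Finset.disjoint_iff_inter_eq_empty.1 hBC,
      Finset.union_empty]
  have i2 : symmDiff (A ∪ B) (A ∪ C) = B ∪ C := by
    rw [Finset.disjoint_left] at hAB hAC hBC
    ext w
    simp only [Finset.mem_symmDiff, Finset.mem_union]
    constructor
    · rintro (⟨h3 | h3, h4⟩ | ⟨h3 | h3, h4⟩)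
      · exact absurd (Or.inl h3) h4
      · exact Or.inl h3
      · exact absurd (Or.inl h3) h4
      · exact Or.inr h3
    · rintro (h3 | h3)
      · exact Or.inl ⟨Or.inr h3, fun h4 => h4.elim (fun h5 => hAB h5 h3) (fun h5 => hBC h3 h5)⟩
      · exact Or.inr ⟨Or.inr h3, fun h4 => h4.elim (fun h5 => hAC h5 h3) (fun h5 => hBC h5 h3)⟩
  have h3 : mono Γ (B ∪ C) ∈ L := by
    rw [← i2]
    apply hL.odd h _ _ (h1 _ c1) (h2 _ c2)
    · rw [c1]; exact hx.add_odd hy
    · rw [i1, hA.2]; exact hx
  intro s hs
  refine hL.deg h _ (B ∪ C) s le_rfl (by rw [c3, hs]) ?_ h3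
  rw [c3]; exact hy.add_odd hz

theorem Lie.all (h : Mon Γ) (hL : Lie Γ L) (hn4 : n % 4 = 1) {k : ℕ} (hk : k % 4 = 2)
    (hk6 : 6 ≤ k) (hkn : k ≤ n) (h1 : All Γ L k) : ∀ m : ℕ, 4 * m + 2 ≤ n → All Γ L (4 * m + 2) := by
  have h6 : All Γ L 6 := by
    have h2 := hL.step h (x := k - 3) (y := 3) (z := 3)
      (by rw [Nat.odd_iff]; omega) (by decide) (by decide) (by omega)
      (by rw [show k - 3 + 3 = k by omega]; exact h1)
      (by rw [show k - 3 + 3 = k by omega]; exact h1)
    exact h2
  intro m
  induction m with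
  | zero =>
    intro _ s hs
    obtain ⟨a, b, hab, rfl⟩ := Finset.card_eq_two.1 (by simpa using hs)
    exact hL.pair_mem h hab
  | succ m ih =>
    intro hm
    have h2 := ih (by omega)
    have h3 := hL.step h (x := 1) (y := 5) (z := 4 * m + 1) (by decide) (by decide)
      (by rw [Nat.odd_iff]; omega) (by omega) h6
      (by rw [show 1 + (4 * m + 1) = 4 * m + 2 by omega]; exact h2)
    rw [show 5 + (4 * m + 1) = 4 * (m + 1) + 2 by omega] at h3
    exact h3

end

theorem t_max (h : S_mono) (h' : S_comm) : S_max := by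
  intro N _ _ n Γ hΓ hn4 hn5 τ hτm hτp L hbr htwo hsk
  rcases isEmpty_or_nonempty N with hN | hN
  · left
    intro a _
    have : a = 0 := by
      ext i j
      exact hN.elim i
    rw [this]
    exact Submodule.zero_mem _
  · obtain ⟨m1, m2, m3, m4⟩ := h N n Γ hΓ
    have hM : Mon Γ := ⟨hΓ.sq, m1, m2, m3, m4⟩
    have hL : Lie Γ L := ⟨hbr, htwo⟩
    have hodd : Odd n := by rw [Nat.odd_iff]; omega
    have hco : ∀ a : Matrix N N ℂ, τ a = -a → (∀ d, InD Γ d → a * d = d * a) →
        ∃ c : Finset (Fin n) → ℂ, (∀ s, ¬ Even s.card → c s = 0) ∧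
          (∀ s, c s ≠ 0 → s.card % 4 = 2) ∧ a = ∑ s, c s • mono Γ s := by
      intro a ha hd
      obtain ⟨c, hc, rfl⟩ := exists_coef (h' N n Γ hΓ a hd)
      exact ⟨c, hc, skew_coef hM (by omega) hτm hτp hc ha, rfl⟩
    by_cases hdeg : ∃ s : Finset (Fin n), mono Γ s ∈ L ∧ s.card % 4 = 2 ∧ 6 ≤ s.card
    · right
      obtain ⟨s, hs, hs4, hs6⟩ := hdeg
      have hsn : s.card ≤ n := by
        have := Finset.card_le_univ s
        rwa [Fintype.card_fin] at this
      have hAll : All Γ L s.card := by
        intro t ht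
        refine hL.deg hM _ s t le_rfl ht.symm ?_ hs
        rw [Nat.even_iff]; omega
      have hall := hL.all hM hn4 hs4 hs6 hsn hAll
      intro a ha hd
      obtain ⟨c, hc, hc4, rfl⟩ := hco a ha hd
      refine Submodule.sum_mem _ fun t _ => ?_
      by_cases hct : c t = 0
      · rw [hct, zero_smul]; exact L.zero_mem
      · apply L.smul_mem
        have h4 := hc4 t hct
        have htn : t.card ≤ n := by
          have := Finset.card_le_univ t
          rwa [Fintype.card_fin] at this
        exact hall (t.card / 4) (by omega) t (by omega)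
    · left
      push Not at hdeg
      intro a ha
      obtain ⟨h1, h2⟩ := hsk a ha
      obtain ⟨c, hc, hc4, rfl⟩ := hco a h1 h2
      refine Submodule.sum_mem _ fun t _ => ?_
      by_cases hct : c t = 0
      · rw [hct, zero_smul]; exact Submodule.zero_mem _
      · apply Submodule.smul_mem
        have h3 := hL.supp hM hodd _ c hc le_rfl ha t hct
        have h4 := hc4 t hct
        have h5 := hdeg t h3 h4
        obtain ⟨i, j, hij, rfl⟩ := Finset.card_eq_two.1 (show t.card = 2 by omega)
        rcases hM.pair hij with h6 | h6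
        · rw [← h6]
          exact Submodule.subset_span ⟨i, j, hij, rfl⟩
        · have h7 : mono Γ {i, j} = -(Γ i * Γ j) := by rw [h6, neg_neg]
          rw [h7]
          exact Submodule.neg_mem _ (Submodule.subset_span ⟨i, j, hij, rfl⟩)

end Pool.Agent.Y998.TS
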